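import Pool.Agent.H86.BT.PP

/-!
# The Bass trace conjecture for groups of piecewise projective bijections of the circle,
# discontinuities allowed

Over every commutative domain of characteristic zero the Bass trace conjecture holds for all groups
of bijections of the circle `P¹(ℝ) = ℝ ∪ {∞}` which are piecewise projective with finitely many
pieces. The bijections may be discontinuous and may reverse the orientation on some pieces. Examples
are the groups of (affine) interval exchange transformations with flips, Thompson's groups `F`, `T`,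
`V`, `PGL₂(ℝ)`, the groups of Monod and of Lodha and Moore, and all groups generated by elements of
these groups together. There are versions for domains of positive characteristic and for groups `L`
of homeomorphisms of the circle instead of `PGL₂(ℝ)`.

Main steps. Let `t h t⁻¹ = h ^ m`, `m ≥ 2`, where `h` has infinite order.
(a) (Amenability.) There is a finitely additive probability `μ` on the subsets of the circle,
invariant under `h` and `t` and without point masses, such that the fixed point sets of the `h ^ n`,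
`n ≥ 1`, are null sets (iterated Banach limits, starting from an ultrafilter).
(b) Let `F x = μ (-∞, x)`. Then `F (g x) = ± F x + c` with finitely many signs and constants, for
`g = h, t`. The points `h ^ j t ^ k x`, `j < m ^ k`, are reached from `x` by `m k` steps `h` or `t`, so
`F` takes a polynomial number of values on them. Hence some `h ^ d` preserves `F` on a set of positive
measure.
(c) If `μ` has no atoms at the one-sided germs of points, then `F` is continuous, and a continuity
argument shows that `h ^ d`, on a piece of positive measure where `F ∘ h ^ d = F`, has infinitely many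
fixed points, which contradicts (a).
(d) The one-sided germs of points of mass at least `δ` are finite in number and are permuted by `h`
and `t`. So powers of `h` and `t` fix one of them, and their germs `l`, `θ` there satisfy
`θ l θ⁻¹ = l ^ (m ^ k)`, and `l` has infinite order as the fixed point sets are null sets.
(e) For `PGL₂` the transformation `l` is parabolic and `θ` has multiplier `M = m ^ k` at the common
fixed point, so `(tr θ)² / det θ = M + 2 + 1 / M`, and `1 / m` is in the ring of the coefficients.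
-/

set_option autoImplicit false

open Set

namespace Pool.Agent.Results.MP_7903c7_al.PiecewiseProjectiveBijections

universe u v

/-- The Bass trace conjecture for the ring `R` and the group `G`. -/
def BassFor (R : Type u) [CommRing R] (G : Type v) [Group G] : Prop :=
  ∀ (n : ℕ) (A : Matrix (Fin n) (Fin n) (MonoidAlgebra R G)), A * A = A →
    ∀ g : G, ¬ IsUnit ((orderOf g : ℕ) : R) →
      ∑ i : Fin n, ∑ᶠ (h : G) (_ : IsConj h g), (A i i).coeff h = 0

/-- The circle `ℝ ∪ {∞}`. -/
abbrev Circ : Type := OnePoint ℝ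

/-- `f` coincides with an element of `P` on every interval of the line which contains no point of
some finite set (so `∞` and finitely many points of the line are exceptional). -/
def PiecewiseIn (P : Set (Circ ≃ₜ Circ)) (f : Circ → Circ) : Prop :=
  ∃ F : Finset ℝ, ∀ I : Set ℝ, I.OrdConnected → (∀ x ∈ F, x ∉ I) →
    ∃ l ∈ P, ∀ x ∈ I, f (x : Circ) = l (x : Circ)

/-- `f` is piecewise projective with coefficients in `A`: on every interval of the line which
contains no point of some finite set `f` is given by a matrix `g` such that the entries of `g` and of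
`g⁻¹` are in `A` (Mathlib's action of `GL₂(ℝ)` on `ℝ ∪ {∞}` by Moebius transformations). -/
def PiecewiseProjective (A : Subring ℝ) (f : Circ → Circ) : Prop :=
  ∃ F : Finset ℝ, ∀ I : Set ℝ, I.OrdConnected → (∀ x ∈ F, x ∉ I) →
    ∃ g : GL (Fin 2) ℝ, (∀ i j, g i j ∈ A) ∧ (∀ i j, (g⁻¹ : GL (Fin 2) ℝ) i j ∈ A) ∧
      ∀ x ∈ I, f (x : Circ) = g • (x : Circ)

/-- `f` is piecewise affine, with slopes different from zero. -/
def PiecewiseAffine (f : Circ → Circ) : Prop :=
  ∃ F : Finset ℝ, ∀ I : Set ℝ, I.OrdConnected → (∀ x ∈ F, x ∉ I) →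
    ∃ a b : ℝ, a ≠ 0 ∧ ∀ x ∈ I, f (x : Circ) = ((a * x + b : ℝ) : Circ)

/-- `R` has characteristic zero, or some prime `p` is not a unit of `R` and `p⁻¹` is not in `A`. -/
def RingCond (R : Type u) [CommRing R] (A : Subring ℝ) : Prop :=
  CharZero R ∨ ∃ p : ℕ, p.Prime ∧ ¬ IsUnit (p : R) ∧ (p : ℝ)⁻¹ ∉ A

/-- Some homomorphism `ρ` from `H` to the group of the bijections of the circle maps `h` to an element
of infinite order, and either all `ρ x` are piecewise projective with coefficients in a ring `A` which
satisfies the condition `RingCond R A`, or all `ρ x` are piecewise affine and the identity outside the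
interval `[-r, r]`. -/
def Detected (R : Type u) [CommRing R] {H : Type v} [Group H] (h : H) : Prop :=
  ∃ ρ : H →* Equiv.Perm Circ, (∀ n : ℕ, 0 < n → ρ h ^ n ≠ 1) ∧
    ((∃ A : Subring ℝ, RingCond R A ∧ ∀ x, PiecewiseProjective A (ρ x)) ∨
      ∃ r : ℝ, ∀ x, PiecewiseAffine (ρ x) ∧
        ∀ s, s ∉ (fun y : ℝ => (y : Circ)) '' Icc (-r) r → ρ x s = s)

/-- All elements of `L` different from the identity have finitely many fixed points. -/
def FewFixedPoints (L : Subgroup (Circ ≃ₜ Circ)) : Prop :=
  ∀ l ∈ L, l ≠ 1 → {x : Circ | l x = x}.Finite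

/-- `L` contains an element `l` of infinite order and an element `θ` with a common fixed point in
`K` and `θ l θ⁻¹ = l ^ (p ^ j)`, `j ≥ 1`. -/
def SelfSimilar (L : Subgroup (Circ ≃ₜ Circ)) (K : Set Circ) (p : ℕ) : Prop :=
  ∃ (x : Circ) (l θ : Circ ≃ₜ Circ) (j : ℕ), x ∈ K ∧ l ∈ L ∧ θ ∈ L ∧ 0 < j ∧ l x = x ∧
    θ x = x ∧ (∀ n : ℕ, 0 < n → l ^ n ≠ 1) ∧ θ * l * θ⁻¹ = l ^ (p ^ j)

/-- `L` is not self-similar at the points of `K` for some prime `p` which is not a unit of `R`, or
`R` has characteristic zero and the finitely generated subgroups of `L` are not self-similar at the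
points of `K` for infinitely many primes `p`. -/
def Allowed (R : Type u) [CommRing R] (L : Subgroup (Circ ≃ₜ Circ)) (K : Set Circ) : Prop :=
  (∃ p : ℕ, p.Prime ∧ ¬ IsUnit (p : R) ∧ ¬ SelfSimilar L K p) ∨
  (CharZero R ∧ ∀ T : Finset (Circ ≃ₜ Circ), (T : Set (Circ ≃ₜ Circ)) ⊆ L → ∀ n : ℕ,
    ∃ p : ℕ, p.Prime ∧ n < p ∧
      ¬ SelfSimilar (Subgroup.closure (T : Set (Circ ≃ₜ Circ))) K p)

/-- Let `R` be a commutative domain.
(1) If `R` has characteristic zero, the Bass trace conjecture holds for `R` and all groups of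
piecewise projective bijections of the circle.
(2) It holds for `R` and the group `G` if for every finitely generated subgroup `H` of `G` all
elements of infinite order of `H` are detected by piecewise projective actions of `H` (with
coefficients in a ring `A` with `RingCond R A`) or by piecewise affine actions of `H` with bounded
support.
(3) It holds for `R` and the group `G` if for every finitely generated subgroup `H` of `G` and every
element `h` of `H` of infinite order there are a group `L` of homeomorphisms of the circle whose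
nontrivial elements have finitely many fixed points, a closed set `K` and a homomorphism `ρ` from `H`
to the group of the bijections of the circle such that `Allowed R L K` holds, all `ρ x` are piecewise
in `L` and the identity outside `K`, and `ρ h` has infinite order. -/
theorem result (R : Type u) [CommRing R] [IsDomain R] :
    (CharZero R → ∀ Γ : Subgroup (Equiv.Perm Circ), (∀ f ∈ Γ, PiecewiseProjective ⊤ f) →
      BassFor R Γ) ∧
    (∀ (G : Type v) [Group G], (∀ H : Subgroup G, H.FG → ∀ h : H,
      (∀ n : ℕ, 0 < n → h ^ n ≠ 1) → Detected R h) → BassFor R G) ∧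
    (∀ (G : Type v) [Group G], (∀ H : Subgroup G, H.FG → ∀ h : H,
      (∀ n : ℕ, 0 < n → h ^ n ≠ 1) →
      ∃ (L : Subgroup (Circ ≃ₜ Circ)) (K : Set Circ) (ρ : H →* Equiv.Perm Circ),
        FewFixedPoints L ∧ IsClosed K ∧ Allowed R L K ∧
        (∀ x, PiecewiseIn (L : Set (Circ ≃ₜ Circ)) (ρ x)) ∧ (∀ x s, s ∉ K → ρ x s = s) ∧
        ∀ n : ℕ, 0 < n → ρ h ^ n ≠ 1) → BassFor R G) := by
  have h3 : ∀ (G : Type v) [Group G], (∀ H : Subgroup G, H.FG → ∀ h : H,
      (∀ n : ℕ, 0 < n → h ^ n ≠ 1) →
      ∃ (L : Subgroup (Circ ≃ₜ Circ)) (K : Set Circ) (ρ : H →* Equiv.Perm Circ),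
        FewFixedPoints L ∧ IsClosed K ∧ Allowed R L K ∧
        (∀ x, PiecewiseIn (L : Set (Circ ≃ₜ Circ)) (ρ x)) ∧ (∀ x s, s ∉ K → ρ x s = s) ∧
        ∀ n : ℕ, 0 < n → ρ h ^ n ≠ 1) → BassFor R G := by
    intro G _ hdet n A hA g hg
    exact Pool.Agent.H86.BT.B.bass hdet A hA g hg
  have hproj : ∀ (A : Subring ℝ) (f : Circ → Circ), PiecewiseProjective A f →
      PiecewiseIn (Pool.Agent.H86.BT.P.LA A : Set (Circ ≃ₜ Circ)) f := by
    rintro A f ⟨F, hF⟩
    refine ⟨F, fun I hI hd => ?_⟩
    obtain ⟨g, h1, h2, hg⟩ := hF I hI hd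
    refine ⟨Pool.Agent.H86.BT.P.ΦH g, ⟨g, ⟨h1, h2⟩, rfl⟩, fun x hx => ?_⟩
    rw [hg x hx, Pool.Agent.H86.BT.P.ΦH_apply]
  have haff : ∀ (f : Circ → Circ), PiecewiseAffine f →
      PiecewiseIn (Pool.Agent.H86.BT.P.LAf : Set (Circ ≃ₜ Circ)) f := by
    rintro f ⟨F, hF⟩
    refine ⟨F, fun I hI hd => ?_⟩
    obtain ⟨a, b, ha, hg⟩ := hF I hI hd
    exact ⟨Pool.Agent.H86.BT.I.lift (Pool.Agent.H86.BT.P.aff a b ha), ⟨a, b, ha, fun x => rfl⟩,
      fun x hx => hg x hx⟩
  have hall : ∀ (A : Subring ℝ), RingCond R A → Allowed R (Pool.Agent.H86.BT.P.LA A) univ :=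
    fun A hA => Pool.Agent.H86.BT.P.allowed_proj hA univ
  have h2 : ∀ (G : Type v) [Group G], (∀ H : Subgroup G, H.FG → ∀ h : H,
      (∀ n : ℕ, 0 < n → h ^ n ≠ 1) → Detected R h) → BassFor R G := by
    intro G _ hdet
    apply h3
    intro H hH h hh
    obtain ⟨ρ, hρ, ⟨A, hA, hP⟩ | ⟨r, hr⟩⟩ := hdet H hH h hh
    · exact ⟨Pool.Agent.H86.BT.P.LA A, univ, ρ, Pool.Agent.H86.BT.P.ff A, isClosed_univ,
        hall A hA, fun x => hproj A _ (hP x), fun x s hs => absurd (mem_univ s) hs, hρ⟩
    · refine ⟨Pool.Agent.H86.BT.P.LAf, _, ρ, Pool.Agent.H86.BT.P.af_ff, ?_,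
        Pool.Agent.H86.BT.P.allowed_aff r, fun x => haff _ (hr x).1, fun x => (hr x).2, hρ⟩
      exact (isCompact_Icc.image OnePoint.continuous_coe).isClosed
  refine ⟨?_, h2, h3⟩
  intro h0 Γ hΓ
  have h3' : ∀ (G : Type) [Group G], (∀ H : Subgroup G, H.FG → ∀ h : H,
      (∀ n : ℕ, 0 < n → h ^ n ≠ 1) →
      ∃ (L : Subgroup (Circ ≃ₜ Circ)) (K : Set Circ) (ρ : H →* Equiv.Perm Circ),
        FewFixedPoints L ∧ IsClosed K ∧ Allowed R L K ∧
        (∀ x, PiecewiseIn (L : Set (Circ ≃ₜ Circ)) (ρ x)) ∧ (∀ x s, s ∉ K → ρ x s = s) ∧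
        ∀ n : ℕ, 0 < n → ρ h ^ n ≠ 1) → BassFor R G := by
    intro G _ hdet n A hA g hg
    exact Pool.Agent.H86.BT.B.bass hdet A hA g hg
  apply h3'
  intro H _ h hh
  refine ⟨Pool.Agent.H86.BT.P.LA ⊤, univ, Γ.subtype.comp H.subtype,
    Pool.Agent.H86.BT.P.ff ⊤, isClosed_univ, hall ⊤ (Or.inl h0), fun x => hproj ⊤ _ (hΓ _ x.1.2),
    fun x s hs => absurd (mem_univ s) hs, fun n hn h1 => hh n hn ?_⟩
  rw [← map_pow] at h1
  apply Subtype.ext
  apply Subtype.ext
  exact h1

end Pool.Agent.Results.MP_7903c7_al.PiecewiseProjectiveBijections
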